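import Pool.Agent.CYE.StmtsF

/-! # Squad CYE (MP_734b60_nt), module COE: the coefficients of `V` and `V'`. -/

set_option autoImplicit false

open Polynomial IsLocalRing

namespace Pool.Agent.CYE.H44

open Pool.Agent.CYD

section core

variable {L : Type} [Field L]

theorem low (ε φ : L) (hφ : φ ≠ 0) (V W Z : PowerSeries L)
    (h1 : V * Z = Z + PowerSeries.X * (PowerSeries.derivative L Z))
    (h2 : W * (PowerSeries.C φ + PowerSeries.C ε * (PowerSeries.X * Z)) =
      -(PowerSeries.C ε * (PowerSeries.X * (Z + PowerSeries.X * (PowerSeries.derivative L Z)))))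
    (z0 : PowerSeries.coeff 0 Z = 1) (z1 : PowerSeries.coeff 1 Z = 1) :
    PowerSeries.coeff 0 V = 1 ∧ PowerSeries.coeff 0 W = 0 ∧ PowerSeries.coeff 1 V = 1 ∧
      φ * PowerSeries.coeff 1 W = -ε ∧
      PowerSeries.coeff 2 V = 2 * PowerSeries.coeff 2 Z - 1 ∧
      φ * PowerSeries.coeff 2 W + ε * PowerSeries.coeff 1 W = -(2 * ε) := by
  have a0 := congrArg (PowerSeries.coeff 0) h1
  have a1 := congrArg (PowerSeries.coeff 1) h1
  have a2 := congrArg (PowerSeries.coeff 2) h1
  have b0 := congrArg (PowerSeries.coeff 0) h2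
  have b1 := congrArg (PowerSeries.coeff 1) h2
  have b2 := congrArg (PowerSeries.coeff 2) h2
  rw [PowerSeries.coeff_mul, Finset.Nat.sum_antidiagonal_eq_sum_range_succ_mk] at a0 a1 a2 b0 b1 b2
  have d0 : PowerSeries.coeff 0 (PowerSeries.derivative L Z) = 1 := by
    rw [PowerSeries.coeff_derivative, z1]; simp
  have d1 : PowerSeries.coeff 1 (PowerSeries.derivative L Z) = 2 * PowerSeries.coeff 2 Z := by
    rw [PowerSeries.coeff_derivative]; push_cast; ring
  simp only [Finset.sum_range_succ, Finset.sum_range_zero, zero_add, Nat.sub_self, Nat.sub_zero,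
    map_add, map_neg, PowerSeries.coeff_C_mul, PowerSeries.coeff_zero_X_mul,
    PowerSeries.coeff_succ_X_mul, PowerSeries.coeff_C, if_true, Nat.reduceSub, one_ne_zero,
    OfNat.ofNat_ne_zero, if_false, z0, z1, d0, d1, mul_one, mul_zero, add_zero, neg_zero]
    at a0 a1 a2 b0 b1 b2
  have w0 : PowerSeries.coeff 0 W = 0 := by
    rcases mul_eq_zero.mp b0 with h | h
    · exact h
    · exact absurd h hφ
  rw [a0] at a1 a2
  rw [w0] at b1 b2
  have v1 : PowerSeries.coeff 1 V = 1 := by linear_combination a1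
  rw [v1] at a2
  refine ⟨a0, w0, v1, by linear_combination b1, by linear_combination a2,
    by linear_combination b2⟩

theorem high (n : ℕ) (hn : 1 ≤ n) (q : L) (U Z : PowerSeries L)
    (h1 : U * (Z * (1 + PowerSeries.X * Z)) = Z + PowerSeries.X * (PowerSeries.derivative L Z))
    (h3 : PowerSeries.X ^ (n + 1) ∣ (1 - PowerSeries.X) * Z -
      (1 - PowerSeries.C q * PowerSeries.X ^ n)) :
    PowerSeries.coeff n U = -(q * n) := by
  obtain ⟨A1, hA⟩ := h3
  set d := PowerSeries.derivative L with hd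
  obtain ⟨k, rfl⟩ : ∃ k, n = k + 1 := ⟨n - 1, by omega⟩
  set s : PowerSeries L := PowerSeries.X ^ k with hs
  set x : PowerSeries L := PowerSeries.X with hx
  have hxn : x ^ (k + 1) = x * s := by rw [hs, pow_succ]; ring
  have hxn1 : x ^ (k + 1 + 1) = x ^ 2 * s := by rw [hs, pow_succ, pow_succ]; ring
  have hdx : d x = 1 := PowerSeries.derivative_X
  have hdxn : d (x ^ (k + 1)) = ((k + 1 : ℕ) : PowerSeries L) * s := by
    rw [hd, hx, PowerSeries.derivative_pow, PowerSeries.derivative_X, hs]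
    simp only [Nat.add_sub_cancel, mul_one]
    rw [hx]
  have hdxn1 : d (x ^ (k + 1 + 1)) = ((k + 1 + 1 : ℕ) : PowerSeries L) * (x * s) := by
    rw [hd, hx, PowerSeries.derivative_pow, PowerSeries.derivative_X, hs]
    simp only [Nat.add_sub_cancel, mul_one]
    rw [pow_succ]; ring
  have hdC : d (PowerSeries.C q) = 0 := PowerSeries.derivative_C
  have hA2 : (1 - x) * Z = 1 - PowerSeries.C q * x ^ (k + 1) + x ^ (k + 1 + 1) * A1 := by
    linear_combination hA
  have hD := congrArg d hA2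
  simp only [Derivation.leibniz, map_add, map_sub, smul_eq_mul, Derivation.map_one_eq_zero, hdx,
    hdC, hdxn, hdxn1] at hD
  rw [hxn, hxn1] at hA2
  rw [hxn1] at hD
  set Q : PowerSeries L := PowerSeries.C q with hQ
  have hP : (1 - x) * d Z - Z = -(Q * (((k + 1 : ℕ) : PowerSeries L) * s)) +
      (x ^ 2 * s * d A1 + A1 * (((k + 1 + 1 : ℕ) : PowerSeries L) * (x * s))) := by
    linear_combination hD
  have hU : U * ((1 - x) * Z) * ((1 - x) + x * ((1 - x) * Z)) =
      (1 - x) * Z + x * (1 - x) * ((1 - x) * d Z - Z) := by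
    linear_combination (1 - x) ^ 2 * h1
  rw [hP, hA2] at hU
  set N : PowerSeries L := ((k + 1 : ℕ) : PowerSeries L) with hN
  have hN1 : ((k + 1 + 1 : ℕ) : PowerSeries L) = N + 1 := by rw [hN]; push_cast; ring
  rw [hN1] at hU
  have hfin : x ^ (k + 1 + 1) ∣ U - 1 + Q * N * x ^ (k + 1) := by
    refine ⟨U * Q ^ 2 * s + ((A1 + Q * N + (1 - x) * ((N + 1) * A1 + x * d A1)) -
      U * (A1 + (-Q + x * A1) * (1 - Q * (x * s) + x ^ 2 * s * A1))) * (1 + Q * x * s) -
      Q ^ 2 * (1 + N) * s, ?_⟩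
    rw [hxn, hxn1]
    linear_combination (1 + Q * x * s) * hU
  have hc := PowerSeries.X_pow_dvd_iff.mp hfin (k + 1) (Nat.lt_succ_self _)
  have hQN : Q * N = PowerSeries.C (q * ((k + 1 : ℕ) : L)) := by
    rw [hQ, hN, map_mul, map_natCast]
  rw [hQN, map_add, map_sub, PowerSeries.coeff_C_mul, hx, PowerSeries.coeff_X_pow,
    PowerSeries.coeff_one, if_neg (Nat.succ_ne_zero k), if_pos rfl] at hc
  linear_combination hc

theorem zco (n : ℕ) (hn : 2 ≤ n) (q : L) (Z : PowerSeries L)
    (h3 : PowerSeries.X ^ (n + 1) ∣ (1 - PowerSeries.X) * Z -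
      (1 - PowerSeries.C q * PowerSeries.X ^ n)) :
    PowerSeries.coeff 0 Z = 1 ∧ PowerSeries.coeff 1 Z = 1 ∧
      PowerSeries.coeff 2 Z = if n = 2 then 1 - q else 1 := by
  have hk := PowerSeries.X_pow_dvd_iff.mp h3
  have e : (1 - PowerSeries.X) * Z - (1 - PowerSeries.C q * PowerSeries.X ^ n) =
      Z - PowerSeries.X * Z - 1 + PowerSeries.C q * PowerSeries.X ^ n := by ring
  rw [e] at hk
  have k0 := hk 0 (by omega)
  have k1 := hk 1 (by omega)
  have k2 := hk 2 (by omega)
  rw [map_add, map_sub, map_sub, PowerSeries.coeff_C_mul, PowerSeries.coeff_X_pow,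
    PowerSeries.coeff_one] at k0 k1 k2
  rw [PowerSeries.coeff_zero_X_mul, if_pos rfl, if_neg (by omega)] at k0
  rw [PowerSeries.coeff_succ_X_mul, if_neg (by omega), if_neg (by omega)] at k1
  rw [PowerSeries.coeff_succ_X_mul, if_neg (by omega)] at k2
  have z0 : PowerSeries.coeff 0 Z = 1 := by linear_combination k0
  rw [z0] at k1
  have z1 : PowerSeries.coeff 1 Z = 1 := by linear_combination k1
  rw [z1] at k2
  refine ⟨z0, z1, ?_⟩
  by_cases h : n = 2
  · rw [if_pos h]
    rw [if_pos h.symm] at k2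
    linear_combination k2
  · rw [if_neg h]
    rw [if_neg (fun h' => h h'.symm)] at k2
    linear_combination k2

end core

theorem revL {L : Type} [Field L] {m : ℕ} (hm : 3 ≤ m) (hφL : ((m.totient : ℕ) : L) ≠ 0) :
    X * derivative (cyclotomic m L) + (derivative (cyclotomic m L)).reverse =
      C ((m.totient : ℕ) : L) * cyclotomic m L := by
  have hredd : red L (derivative (cyclotomic m ℤ)) = derivative (cyclotomic m L) := by
    unfold red
    rw [← derivative_map, map_cyclotomic_int]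
  have hredc : red L (cyclotomic m ℤ) = cyclotomic m L := map_cyclotomic_int m L
  have hlcd : ((((derivative (cyclotomic m ℤ)).leadingCoeff : ℤ)) : L) ≠ 0 := by
    rw [leadingCoeff_derivative, (cyclotomic.monic m ℤ).leadingCoeff, natDegree_cyclotomic,
      one_mul, Int.cast_natCast]
    exact hφL
  obtain ⟨_, hrev'⟩ := CYD.H66.red_reverse hlcd
  rw [hredd] at hrev'
  have h1 := congrArg (red L) (CYE.rev m hm)
  rw [CYD.H66.red_add, CYD.H66.red_mul, CYD.H66.red_mul, hredd, hredc, ← hrev'] at h1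
  have h2 : red L (X : ℤ[X]) = X := Polynomial.map_X _
  have h4 : red L (C ((m.totient : ℕ) : ℤ)) = C ((m.totient : ℕ) : L) := by
    unfold red
    rw [map_C]
    simp
  rw [h2, h4] at h1
  exact h1

theorem yexL {L : Type} [Field L] {m n : ℕ} (hn : m.minFac = n + 1) {ε : ℤ}
    (hY : (X : ℤ[X]) ^ (m.minFac + 1) ∣ (1 - X) * (X * derivative (cyclotomic m ℤ)) +
      C ε * (cyclotomic m ℤ * (X - C (m.minFac : ℤ) * X ^ m.minFac * (1 - X)))) :
    (X : L[X]) ^ (n + 1) ∣ (1 - X) * derivative (cyclotomic m L) +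
      C (ε : L) * (cyclotomic m L * (1 - C ((n + 1 : ℕ) : L) * X ^ n * (1 - X))) := by
  have hc : ∀ z : ℤ, (C z : ℤ[X]).map (Int.castRingHom L) = C ((z : ℤ) : L) := fun z => by
    rw [Polynomial.map_C]
    rfl
  have h1 := Polynomial.map_dvd (Int.castRingHom L) hY
  rw [hn] at h1
  simp only [Polynomial.map_pow, Polynomial.map_add, Polynomial.map_mul, Polynomial.map_sub,
    Polynomial.map_X, Polynomial.map_one, hc, map_cyclotomic_int,
    ← derivative_map, Int.cast_natCast] at h1
  have h2 : (X : L[X]) ^ (n + 1 + 1) = X * X ^ (n + 1) := by ring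
  have h3 : (1 - X) * (X * derivative (cyclotomic m L)) +
      C (ε : L) * (cyclotomic m L * (X - C ((n + 1 : ℕ) : L) * X ^ (n + 1) * (1 - X))) =
      X * ((1 - X) * derivative (cyclotomic m L) +
        C (ε : L) * (cyclotomic m L * (1 - C ((n + 1 : ℕ) : L) * X ^ n * (1 - X)))) := by ring
  rw [h2, h3] at h1
  exact (mul_dvd_mul_iff_left X_ne_zero).mp h1

theorem ps {L : Type} [Field L] (φ ε q : L) (n : ℕ) (hε : ε * ε = 1)
    (Φ D R lR lD lΦ Δ Δi Φi G : PowerSeries L) (iΦ : Φ * Φi = 1) (iΔ : Δ * Δi = 1)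
    (nΦ : Φ ≠ 0) (nD : D ≠ 0) (nR : R ≠ 0) (hD' : PowerSeries.derivative L Φ = D)
    (pR : PowerSeries.X * D + R = PowerSeries.C φ * Φ)
    (p1 : lΦ * Φ = Δ * (PowerSeries.X * D))
    (p2 : lD * D = Δ * (PowerSeries.X * PowerSeries.derivative L D))
    (p3 : lR * R = Δ * (PowerSeries.X * PowerSeries.derivative L R))
    (pY : (1 - PowerSeries.X) * D + PowerSeries.C ε * (Φ *
      (1 - PowerSeries.C q * PowerSeries.X ^ n * (1 - PowerSeries.X))) =
      PowerSeries.X ^ (n + 1) * G) :
    ∃ Z : PowerSeries L,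
      ((Δ + lD - lΦ) * Δi) * Z = Z + PowerSeries.X * (PowerSeries.derivative L Z) ∧
      ((lΦ - lR) * Δi) * (PowerSeries.C φ + PowerSeries.C ε * (PowerSeries.X * Z)) =
        -(PowerSeries.C ε * (PowerSeries.X * (Z + PowerSeries.X * (PowerSeries.derivative L Z)))) ∧
      PowerSeries.X ^ (n + 1) ∣ (1 - PowerSeries.X) * Z -
        (1 - PowerSeries.C q * PowerSeries.X ^ n) := by
  have hεs : PowerSeries.C ε * PowerSeries.C ε = (1 : PowerSeries L) := by
    rw [← map_mul, hε, map_one]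
  have hdC : ∀ a : L, PowerSeries.derivative L (PowerSeries.C a) = 0 :=
    fun a => PowerSeries.derivative_C
  have hdX : PowerSeries.derivative L (PowerSeries.X : PowerSeries L) = 1 :=
    PowerSeries.derivative_X
  generalize PowerSeries.derivative L = d at *
  have hdε := hdC ε
  have hdφ := hdC φ
  generalize (PowerSeries.C ε : PowerSeries L) = E at *
  generalize (PowerSeries.C φ : PowerSeries L) = f at *
  generalize (PowerSeries.C q : PowerSeries L) = Q at *
  generalize (PowerSeries.X : PowerSeries L) = x at *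
  obtain ⟨Z, hZ⟩ : ∃ Z, Z = -(E * D * Φi) := ⟨_, rfl⟩
  have z1 : Z * Φ = -(E * D) := by
    rw [hZ]
    linear_combination -(E * D) * iΦ
  have z2 : d Z * Φ + Z * D = -(E * d D) := by
    have := congrArg d z1
    simp only [Derivation.leibniz, map_neg, smul_eq_mul, hD', hdε] at this
    linear_combination this
  have rE : R = Φ * (f + E * (x * Z)) := by
    linear_combination pR - x * E * z1 + (x * D) * hεs
  have rE' : d R = D * (f + E * (x * Z)) + Φ * (E * (Z + x * d Z)) := by
    have := congrArg d rE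
    simp only [Derivation.leibniz, map_add, smul_eq_mul, hD', hdε, hdφ, hdX] at this
    linear_combination this
  refine ⟨Z, ?_, ?_, ?_⟩
  · apply mul_left_cancel₀ (mul_ne_zero nΦ nD)
    linear_combination (Φ * Δi * Z) * p2 - (D * Δi * Z) * p1 +
      (Φ * D * Z + Φ * Z * x * d D - D ^ 2 * Z * x) * iΔ + (x * d D) * z1 - (x * D) * z2
  · apply mul_left_cancel₀ (mul_ne_zero nΦ nR)
    linear_combination (R * Δi * (f + E * (x * Z))) * p1 - (Φ * Δi * (f + E * (x * Z))) * p3 +
      (R * (f + E * (x * Z)) * x * D - Φ * (f + E * (x * Z)) * x * d R) * iΔ -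
      (Φ * (f + E * (x * Z)) * x) * rE' +
      ((f + E * (x * Z)) * x * D + Φ * E * x * (Z + x * d Z)) * rE
  · refine ⟨Q - E * G * Φi, ?_⟩
    rw [hZ]
    linear_combination (-(E * Φi)) * pY + (1 - Q * x ^ n * (1 - x)) * (Φ * Φi) * hεs +
      (1 - Q * x ^ n * (1 - x)) * iΦ

theorem ser {L : Type} [Field L] (φ ε q : L) (n : ℕ) (hε : ε * ε = 1)
    (Φ D R lR lD lΦ Δ : L[X]) (hD : D = derivative Φ) (hΦ0 : Φ.coeff 0 ≠ 0) (hD0 : D.coeff 0 ≠ 0)
    (hΔ0 : Δ.coeff 0 ≠ 0) (hR0 : R.coeff 0 ≠ 0) (hR : X * D + R = C φ * Φ)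
    (hld1 : lΦ * Φ = Δ * (X * D)) (hld2 : lD * D = Δ * (X * derivative D))
    (hld3 : lR * R = Δ * (X * derivative R))
    (hY : X ^ (n + 1) ∣ (1 - X) * D + C ε * (Φ * (1 - C q * X ^ n * (1 - X)))) :
    ∃ Z : PowerSeries L,
      (((Δ + lD - lΦ : L[X]) : PowerSeries L) * (Δ : PowerSeries L)⁻¹) * Z =
        Z + PowerSeries.X * (PowerSeries.derivative L Z) ∧
      (((lΦ - lR : L[X]) : PowerSeries L) * (Δ : PowerSeries L)⁻¹) *
          (PowerSeries.C φ + PowerSeries.C ε * (PowerSeries.X * Z)) =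
        -(PowerSeries.C ε * (PowerSeries.X * (Z + PowerSeries.X * (PowerSeries.derivative L Z)))) ∧
      PowerSeries.X ^ (n + 1) ∣ (1 - PowerSeries.X) * Z -
        (1 - PowerSeries.C q * PowerSeries.X ^ n) := by
  have cc : ∀ f : L[X], f.coeff 0 ≠ 0 → PowerSeries.constantCoeff (f : PowerSeries L) ≠ 0 := by
    intro f hf
    rw [← PowerSeries.coeff_zero_eq_constantCoeff_apply, Polynomial.coeff_coe]
    exact hf
  have nz : ∀ f : L[X], f.coeff 0 ≠ 0 → (f : PowerSeries L) ≠ 0 := by
    intro f hf h0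
    apply cc f hf
    rw [h0, map_zero]
  obtain ⟨G, hG⟩ := hY
  rw [Polynomial.coe_sub, Polynomial.coe_sub, Polynomial.coe_add]
  refine ps φ ε q n hε (Φ : PowerSeries L) (D : PowerSeries L) (R : PowerSeries L)
    (lR : PowerSeries L) (lD : PowerSeries L) (lΦ : PowerSeries L) (Δ : PowerSeries L) _
    ((Φ : PowerSeries L)⁻¹) (G : PowerSeries L)
    (PowerSeries.mul_inv_cancel _ (cc Φ hΦ0)) (PowerSeries.mul_inv_cancel _ (cc Δ hΔ0))
    (nz Φ hΦ0) (nz D hD0) (nz R hR0) ?_ ?_ ?_ ?_ ?_ ?_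
  · rw [PowerSeries.derivative_coe, hD]
  · have := congrArg (fun f : L[X] => (f : PowerSeries L)) hR
    simpa using this
  · have := congrArg (fun f : L[X] => (f : PowerSeries L)) hld1
    simpa using this
  · have := congrArg (fun f : L[X] => (f : PowerSeries L)) hld2
    rw [PowerSeries.derivative_coe]
    simpa using this
  · have := congrArg (fun f : L[X] => (f : PowerSeries L)) hld3
    rw [PowerSeries.derivative_coe]
    simpa using this
  · have := congrArg (fun f : L[X] => (f : PowerSeries L)) hG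
    simpa using this

theorem coe (hBaf : BafStmt) (hAff : AffStmt) (hYex : YexStmt) : CYE.CoeStmt := by
  intro p m g h F L _ _ e e' he he' hne
  obtain ⟨hp5, hpt, _, _, _⟩ := hBaf p m g h F
  obtain ⟨hΔ, hΔ0, _, hld, _, _, _, _⟩ := hAff p m g h F L
  obtain ⟨ε, hε, hY⟩ := hYex m F.hm F.odd F.sqf
  have hφL : ((m.totient : ℕ) : L) ≠ 0 := by
    intro h0
    exact hpt ((CharP.cast_eq_zero_iff L p _).mp h0)
  have hR := revL (L := L) F.hm hφL
  have hqp : m.minFac.Prime := Nat.minFac_prime (by have := F.hm; omega)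
  have hq3 : 3 ≤ m.minFac := by
    have h2 := hqp.two_le
    have hodd : Odd m.minFac := F.odd.of_dvd_nat (Nat.minFac_dvd m)
    rcases hodd with ⟨r, hr⟩
    omega
  have hqlt : m.minFac < p := F.hlt _ hqp (Nat.minFac_dvd m)
  obtain ⟨n, hn⟩ : ∃ n, m.minFac = n + 1 := ⟨m.minFac - 1, by omega⟩
  have hn2 : 2 ≤ n := by omega
  have hYL := yexL (L := L) hn hY
  -- the polynomials
  have hld1 := (hld _ (Or.inr (Or.inr (Or.inr (Or.inr (Or.inl rfl)))))).1
  have hld2 := (hld _ (Or.inr (Or.inr (Or.inr (Or.inr (Or.inr (Or.inl rfl))))))).1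
  have hld3 := (hld _ (Or.inr (Or.inr (Or.inr (Or.inr (Or.inr (Or.inr rfl))))))).1
  clear hld
  have hDl : Dl L m = cyclotomic m L * derivative (cyclotomic m L) *
    (derivative (cyclotomic m L)).reverse := rfl
  unfold dX at hld1 hld2 hld3
  have hVm : Vm L m = Dl L m + ld (Dl L m) (derivative (cyclotomic m L)) -
    ld (Dl L m) (cyclotomic m L) := rfl
  have hWm : Wm L m = ld (Dl L m) (cyclotomic m L) -
    ld (Dl L m) (derivative (cyclotomic m L)).reverse := rfl
  unfold co
  generalize Vm L m = VV at *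
  generalize Wm L m = WW at *
  generalize ld (Dl L m) (derivative (cyclotomic m L)).reverse = lR at *
  generalize ld (Dl L m) (derivative (cyclotomic m L)) = lD at *
  generalize ld (Dl L m) (cyclotomic m L) = lΦ at *
  generalize Dl L m = Δ at *
  generalize (derivative (cyclotomic m L)).reverse = R at *
  have h0 : (cyclotomic m L).coeff 0 ≠ 0 ∧ (derivative (cyclotomic m L)).coeff 0 ≠ 0 ∧
      R.coeff 0 ≠ 0 := by
    rw [hDl, mul_coeff_zero, mul_coeff_zero] at hΔ0
    exact ⟨left_ne_zero_of_mul (left_ne_zero_of_mul hΔ0),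
      right_ne_zero_of_mul (left_ne_zero_of_mul hΔ0), right_ne_zero_of_mul hΔ0⟩
  have hεL : (ε : L) * (ε : L) = 1 := by
    rcases hε with h | h <;> rw [h] <;> simp
  obtain ⟨Z, c1, c2, c3⟩ := ser ((m.totient : ℕ) : L) (ε : L) ((n + 1 : ℕ) : L) n hεL
    (cyclotomic m L) (derivative (cyclotomic m L)) R lR lD lΦ Δ rfl h0.1 h0.2.1 hΔ0 h0.2.2 hR
    hld1 hld2 hld3 hYL
  rw [← hVm] at c1
  rw [← hWm] at c2
  obtain ⟨z0, z1, z2⟩ := zco n hn2 _ Z c3
  clear hld1 hld2 hld3 hYL hVm hWm hR hDl h0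
  generalize ((m.totient : ℕ) : L) = φ at *
  generalize (VV : PowerSeries L) * (Δ : PowerSeries L)⁻¹ = V at *
  generalize (WW : PowerSeries L) * (Δ : PowerSeries L)⁻¹ = W at *
  obtain ⟨v0, w0, v1, w1', v2, w2'⟩ := low (ε : L) φ hφL V W Z c1 c2 z0 z1
  have castne : ∀ k : ℕ, 0 < k → k < p → ((k : ℕ) : L) ≠ 0 := by
    intro k hk0 hkp h0
    have := Nat.le_of_dvd hk0 ((CharP.cast_eq_zero_iff L p k).mp h0)
    omega
  have h2L : (2 : L) ≠ 0 := by
    have := castne 2 (by norm_num) (by omega)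
    exact_mod_cast this
  by_contra hcon
  have hc : ∀ k : ℕ, (k = 1 ∨ k = 2 ∨ k = m.minFac - 1) →
      (e : L) * PowerSeries.coeff k V + (e' : L) * PowerSeries.coeff k W = 0 ∧
        (e' : L) * PowerSeries.coeff k V + (e : L) * PowerSeries.coeff k W = 0 := by
    intro k hk
    constructor
    · by_contra h1
      exact hcon ⟨k, hk, Or.inl h1⟩
    · by_contra h1
      exact hcon ⟨k, hk, Or.inr h1⟩
  obtain ⟨k1, k1'⟩ := hc 1 (Or.inl rfl)
  rw [v1] at k1 k1'
  have A1 : (e : L) * φ = e' * ε := by linear_combination φ * k1 - (e' : L) * w1'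
  have A2 : (e' : L) * φ = e * ε := by linear_combination φ * k1' - (e : L) * w1'
  have key : (e : L) ≠ 0 ∧ (((e' : L) = e ∧ φ = ε) ∨ ((e' : L) = -e ∧ φ = -ε)) := by
    have h10 : (1 : L) ≠ 0 := one_ne_zero
    rcases he with h1 | h1 | h1 <;> rcases he' with h2 | h2 | h2 <;>
      rcases hε with h3 | h3 <;> subst h1 <;> subst h2 <;> subst h3 <;>
      simp at A1 A2 hne ⊢ <;>
      first
        | tauto
        | exact Or.inl (by linear_combination -A1)
  obtain ⟨hen, hkey⟩ := key
  rcases hkey with ⟨hee, hφε⟩ | ⟨hee, hφε⟩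
  · obtain ⟨kn, _⟩ := hc n (Or.inr (Or.inr (by omega)))
    have hU : (V + W) * (Z * (1 + PowerSeries.X * Z)) =
        Z + PowerSeries.X * (PowerSeries.derivative L Z) := by
      have hEE : PowerSeries.C (ε : L) * PowerSeries.C (ε : L) = (1 : PowerSeries L) := by
        rw [← map_mul, hεL, map_one]
      rw [hφε] at c2
      linear_combination (1 + PowerSeries.X * Z) * c1 + Z * PowerSeries.C (ε : L) * c2 -
        (W * Z * (1 + PowerSeries.X * Z) +
          PowerSeries.X * Z * (Z + PowerSeries.X * (PowerSeries.derivative L Z))) * hEE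
    have hn' := high n (by omega) _ (V + W) Z hU c3
    rw [map_add] at hn'
    rw [hee] at kn
    have h5 : (e : L) * (((n + 1 : ℕ) : L) * ((n : ℕ) : L)) = 0 := by
      linear_combination -kn + (e : L) * hn'
    rcases mul_eq_zero.mp h5 with h | h
    · exact hen h
    · rcases mul_eq_zero.mp h with h | h
      · exact castne (n + 1) (by omega) (by omega) h
      · exact castne n (by omega) (by omega) h
  · obtain ⟨k2, _⟩ := hc 2 (Or.inr (Or.inl rfl))
    rw [hφε] at w1' w2'
    have hεn : (ε : L) ≠ 0 := left_ne_zero_of_mul (by rw [hεL]; exact one_ne_zero)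
    have hw1 : PowerSeries.coeff 1 W = 1 := by
      apply mul_left_cancel₀ hεn
      linear_combination -w1'
    rw [hw1] at w2'
    have hw2 : PowerSeries.coeff 2 W = 3 := by
      apply mul_left_cancel₀ hεn
      linear_combination -w2'
    rw [hee, hw2] at k2
    have hv2 : PowerSeries.coeff 2 V = 3 := by
      apply mul_left_cancel₀ hen
      linear_combination k2
    rw [hv2, z2] at v2
    split_ifs at v2 with h
    · subst h
      push_cast at v2
      have h8 : (2 : L) ^ 3 = 0 := by linear_combination v2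
      exact h2L (pow_eq_zero_iff (by norm_num) |>.mp h8)
    · apply h2L
      linear_combination v2

end Pool.Agent.CYE.H44
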