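import Pool.Agent.CYE.StmtsF

/-!
# Squad CYE, row FXN (helper44): numerical form of EXC
-/

set_option autoImplicit false

open Polynomial IsLocalRing

namespace Pool.Agent.CYE.H44

open Pool.Agent.CYE Pool.Agent.CYD

/-- the arithmetic -/
theorem fxn_num (p k J B1 B2 φ Sc R : ℕ) (hk : 1 ≤ k) (hp : 2 ^ (20 * k * 2 ^ k) ≤ p)
    (hJ : J = p / 2 ^ (k + 2)) (hS : Sc ≤ B1 + B2) (h1 : J * B1 ≤ 2 ^ (k - 1) * (2 * φ))
    (h2 : (p - 15 - 2 ^ (k - 1 + 1) * J) * B2 ≤ R)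
    (hR : R ≤ 18 * φ * 2 ^ (2 ^ k + 10 * 2 ^ k * (k - 1))) :
    p * Sc ≤ 2 ^ (10 * k * 2 ^ k) * φ := by
  obtain ⟨j, rfl⟩ : ∃ j, k = j + 1 := ⟨k - 1, by omega⟩
  have e0 : j + 1 - 1 = j := by omega
  rw [e0] at h1 h2 hR
  obtain ⟨E, hE⟩ : ∃ E : ℕ, E = 2 ^ (j + 1) := ⟨_, rfl⟩
  have hE1 : j + 2 ≤ E := by
    have := Nat.lt_two_pow_self (n := j + 1)
    omega
  have hE2 : 2 ≤ E := by omega
  have hp2 : 2 ^ (j + 10) ≤ p := by
    refine le_trans (Nat.pow_le_pow_right (by norm_num) ?_) hp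
    nlinarith [Nat.zero_le j]
  have hp3 : 2 ^ (j + 10) = 2 ^ (j + 4) * 64 := by
    rw [show j + 10 = (j + 4) + 6 from rfl, pow_add]
    norm_num
  have hp4 : 2 ^ (j + 4) = E * 8 := by
    rw [hE, show j + 4 = (j + 1) + 3 from rfl, pow_add]
    norm_num
  have hp5 : 2 ^ (j + 1 + 2) = E * 4 := by
    rw [hE, pow_add]
    norm_num
  rw [hp5] at hJ
  have hJ1 : E * 4 * J ≤ p := by
    rw [hJ]
    exact Nat.mul_div_le p (E * 4)
  have hJ2 : p < E * 4 * (J + 1) := by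
    rw [hJ]
    exact Nat.lt_mul_div_succ p (by omega)
  have hpE : E * 8 * 64 ≤ p := by
    rw [← hp4, ← hp3]
    exact hp2
  have hJ3 : p ≤ E * 8 * J := by nlinarith
  rw [← hE] at h2 hR
  have a1 : p * B1 ≤ E * 8 * (E * φ) := by
    calc p * B1 ≤ E * 8 * J * B1 := Nat.mul_le_mul_right _ hJ3
      _ = E * 8 * (J * B1) := by ring
      _ ≤ E * 8 * (2 ^ j * (2 * φ)) := Nat.mul_le_mul_left _ h1
      _ = E * 8 * (E * φ) := by rw [hE, pow_succ]; ring
  have a2 : p * B2 ≤ 2 * R := by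
    have b1 : p ≤ 2 * (p - 15 - E * J) := by
      have b2 : 4 * (E * J) ≤ p := by nlinarith
      omega
    calc p * B2 ≤ 2 * (p - 15 - E * J) * B2 := Nat.mul_le_mul_right _ b1
      _ = 2 * ((p - 15 - E * J) * B2) := by ring
      _ ≤ 2 * R := Nat.mul_le_mul_left _ h2
  have a3 : p * Sc ≤ (8 * E ^ 2 + 36 * 2 ^ (E + 10 * E * j)) * φ := by
    calc p * Sc ≤ p * (B1 + B2) := Nat.mul_le_mul_left _ hS
      _ = p * B1 + p * B2 := by ring
      _ ≤ E * 8 * (E * φ) + 2 * (18 * φ * 2 ^ (E + 10 * E * j)) :=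
        add_le_add a1 (a2.trans (Nat.mul_le_mul_left _ hR))
      _ = (8 * E ^ 2 + 36 * 2 ^ (E + 10 * E * j)) * φ := by ring
  refine a3.trans (Nat.mul_le_mul_right _ ?_)
  rw [← hE]
  have c1 : 8 * E ^ 2 ≤ 2 ^ (10 * E * j + 9 * E) := by
    have d1 : 8 * E ^ 2 = 2 ^ (2 * j + 5) := by
      rw [hE, show 2 * j + 5 = 3 + ((j + 1) + (j + 1)) by ring, pow_add 2 3, pow_add 2 (j + 1)]
      ring
    rw [d1]
    refine Nat.pow_le_pow_right (by norm_num) ?_
    nlinarith [Nat.zero_le (10 * E * j)]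
  have c2 : 36 * 2 ^ (E + 10 * E * j) ≤ 2 ^ (10 * E * j + 9 * E) := by
    calc 36 * 2 ^ (E + 10 * E * j) ≤ 2 ^ 6 * 2 ^ (E + 10 * E * j) :=
          Nat.mul_le_mul_right _ (by norm_num)
      _ = 2 ^ (6 + (E + 10 * E * j)) := (pow_add 2 6 _).symm
      _ ≤ 2 ^ (10 * E * j + 9 * E) := Nat.pow_le_pow_right (by norm_num) (by omega)
  have c3 : 2 * 2 ^ (10 * E * j + 9 * E) ≤ 2 ^ (10 * (j + 1) * E) := by
    rw [← pow_succ']
    refine Nat.pow_le_pow_right (by norm_num) ?_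
    nlinarith
  omega

theorem map_fst_ops {ι : Type} (sm lg : List ι) : (ops sm lg).map Prod.fst = sm ++ lg := by
  unfold ops
  rw [List.map_append, List.map_map, List.map_map]
  have h1 : (Prod.fst ∘ fun i : ι => (i, true)) = id := rfl
  have h2 : (Prod.fst ∘ fun i : ι => (i, false)) = id := rfl
  rw [h1, h2, List.map_id, List.map_id]

theorem mem_ops_false {ι : Type} {sm lg : List ι} {i : ι} (h : (i, false) ∈ ops sm lg) :
    i ∈ lg := by
  unfold ops at h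
  rcases List.mem_append.1 h with h | h
  · obtain ⟨j, -, hj⟩ := List.mem_map.1 h
    cases hj
  · obtain ⟨j, hj, hj'⟩ := List.mem_map.1 h
    cases hj'
    exact hj

theorem mem_ops_true {ι : Type} {sm lg : List ι} {i : ι} (h : (i, true) ∈ ops sm lg) :
    i ∈ sm := by
  unfold ops at h
  rcases List.mem_append.1 h with h | h
  · obtain ⟨j, hj, hj'⟩ := List.mem_map.1 h
    cases hj'
    exact hj
  · obtain ⟨j, -, hj⟩ := List.mem_map.1 h
    cases hj

theorem fxn (hE : ExcStmt) : FxnStmt := by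
  intro ι _ _ q _ p m k g h K _ _ _ A z α hpA hz hS sm lg hnd hall hk hsm hp s S hSb
  have hlen : (ops sm lg).length = k - 1 := by
    have h1 := congrArg List.length (map_fst_ops sm lg)
    rw [List.length_map] at h1
    omega
  obtain ⟨B1, B2, h1, h2, h3⟩ := hE ι q p m g h K A z α hpA hz hS (ops sm lg)
    (by rw [map_fst_ops]; exact hnd) (by rw [map_fst_ops]; exact hall) s S (p / 2 ^ (k + 2))
    (fun b hb => ⟨(hSb b hb).1.1, fun i hi => ((hSb b hb).1.2.2 i (mem_ops_false hi)).2,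
      (hSb b hb).2⟩)
  rw [hlen] at h2 h3
  have hk1 : 1 ≤ k := by omega
  obtain ⟨a, ha⟩ : ∃ a : ℕ, a = 2 ^ (5 * 2 ^ k) := ⟨_, rfl⟩
  have ha2 : 2 ≤ a := by
    rw [ha]
    calc 2 = 2 ^ 1 := rfl
      _ ≤ 2 ^ (5 * 2 ^ k) := Nat.pow_le_pow_right (by norm_num) (by
        have := Nat.one_le_two_pow (n := k)
        omega)
  rw [← ha] at hsm
  have p1 : ((ops sm lg).map fun x => if x.2 then q x.1 else 1).prod ≤ a ^ (k - 1) := by
    have := List.prod_le_pow_card ((ops sm lg).map fun x => if x.2 then q x.1 else 1) a (by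
      intro x hx
      obtain ⟨⟨i, c⟩, hi, rfl⟩ := List.mem_map.1 hx
      cases c
      · change 1 ≤ a
        omega
      · exact (hsm i (mem_ops_true hi)).le)
    rwa [List.length_map, hlen] at this
  have p2 : ((ops sm lg).map fun x => if x.2 then 1 + q x.1 else 2).prod ≤ a ^ (k - 1) := by
    have := List.prod_le_pow_card ((ops sm lg).map fun x => if x.2 then 1 + q x.1 else 2) a (by
      intro x hx
      obtain ⟨⟨i, c⟩, hi, rfl⟩ := List.mem_map.1 hx
      cases c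
      · exact ha2
      · change 1 + q i ≤ a
        have := hsm i (mem_ops_true hi)
        omega)
    rwa [List.length_map, hlen] at this
  refine fxn_num p k _ B1 B2 m.totient S.card _ hk1 hp rfl h1 h2 h3 ?_
  have p3 : MT q m (ops sm lg) ≤ 3 * m.totient * a ^ (k - 1) := Nat.mul_le_mul_left _ p2
  have p4 : 4 ^ 2 ^ (k - 1) = 2 ^ (2 ^ k) := by
    rw [show (4 : ℕ) = 2 ^ 2 by norm_num, ← pow_mul, ← pow_succ']
    congr 2
    omega
  calc 4 ^ 2 ^ (k - 1) * ((ops sm lg).map fun x => if x.2 then q x.1 else 1).prod *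
        (6 * MT q m (ops sm lg))
      ≤ 2 ^ (2 ^ k) * a ^ (k - 1) * (6 * (3 * m.totient * a ^ (k - 1))) := by
        rw [p4]
        exact Nat.mul_le_mul (Nat.mul_le_mul_left _ p1) (Nat.mul_le_mul_left _ p3)
    _ = 18 * m.totient * (2 ^ (2 ^ k) * (a ^ (k - 1) * a ^ (k - 1))) := by ring
    _ = 18 * m.totient * 2 ^ (2 ^ k + 10 * 2 ^ k * (k - 1)) := by
        rw [ha, ← pow_mul, ← pow_add, ← pow_add]
        congr 2
        ring

end Pool.Agent.CYE.H44
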